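import Pool.Agent.helper55.VDI.SpecB1

/-!
# Project INF (MP_07c750_an), version B, row QRB (helper23)

Packet coefficients for two metrics.
-/

set_option autoImplicit false

open scoped ContDiff Topology InnerProductSpace ComplexConjugate ENNReal
open MeasureTheory Filter Set

namespace Pool.Agent.VDI

open Pool.Agent.VD
open Pool.Agent.VQ (CH KZ PS perZ cmZ)
open Pool.Agent.RPQ (IsOp)
open Pool.Agent.VDA (STP FB FR FT nY OY OA)
open Pool.Agent.VDE (FDX)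

noncomputable section

variable {d : ℕ}

theorem QRB_pkt (G G' : V d → V d →L[ℝ] V d) (ch : ℝ → ℝ) (ζ R : ℝ) (p : P d) (w : V d) (ρ : ℝ) (hρ : 0 < ρ)
    (h : dens G' w = ρ ^ 2 * dens G w) : (ρ : ℂ) * pkt G' ch ζ R p w = pkt G ch ζ R p w := by
  unfold pkt
  have hs : Real.sqrt (dens G' w) = ρ * Real.sqrt (dens G w) := by
    rw [h, Real.sqrt_mul (by positivity), Real.sqrt_sq hρ.le]
  rw [hs, ← mul_assoc]
  congr 1
  rw [← Complex.ofReal_mul]
  congr 1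
  rw [mul_div_assoc']
  exact mul_div_mul_left _ _ hρ.ne'

theorem QRB_proof (hRHB : RHB_stmt) (hAMVI : AMVI_stmt) : QRB_stmt := by
  intro d Γ _ _ K k B b hK
  obtain ⟨C, R0, hC, hR0, hR⟩ := hRHB d Γ K k B b hK
  refine ⟨R0, hR0, ?_⟩
  intro R G G' χ ch ζ φ y hRR hG hN
  obtain ⟨-, hinv, -, -, hpos, -⟩ := hR R G G' hRR hG hN
  have hI' := (hAMVI d Γ K k B G' hK hN.cls).2.2.2.2.2.2.2.1
  have hI := (hAMVI d Γ K k B G hK hG).2.2.2.2.2.2.2.1
  unfold QF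
  rw [hI' ℂ, hI ℂ]
  congr 1
  funext z
  obtain ⟨hρ, hd⟩ := hpos z
  obtain ⟨-, hdw⟩ := hpos (y.1⁻¹ • z)
  rw [hinv] at hdw
  have hp := QRB_pkt G G' ch ζ R y.2 (y.1⁻¹ • z) (roB G G' z) hρ hdw
  unfold Gp
  rw [← hp, hd, Complex.real_smul, Complex.real_smul]
  simp only [map_mul, Complex.conj_ofReal]
  push_cast
  ring

end

end Pool.Agent.VDI
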