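import Pool.Agent.helper74.VDI.SpecF

set_option autoImplicit false

open scoped ContDiff Topology InnerProductSpace ENNReal ComplexConjugate
open MeasureTheory Filter Set

namespace Pool.Agent.VDI

open Pool.Agent.RPQ (PN PJ UN upd)
open Pool.Agent.VQ (CH rk)
open Pool.Agent.VN (aN)
open Pool.Agent.VD
open Pool.Agent.VDE (UWLD FDX)

theorem FNWF_proof (hFNF : FNF_stmt) (hFTR : VD.FTR_stmt) (hNGB : NGB_stmt) (hFPS : VD.FPS_stmt) (hDFD : VD.DFD_stmt) (hCFC : VD.CFC_stmt) (hRSM : RPQ.RSM_stmt) : FNWF_stmt := by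
  intro d Γ _ _ hd hsm hfr hpr hco
  obtain ⟨K0, hK0, hK0c⟩ := hco
  obtain ⟨r, hr⟩ := hK0.isBounded.subset_closedBall (0 : V d)
  have hfd : FdK Γ (Metric.closedBall (0 : V d) r) := ⟨isCompact_closedBall _ _, convex_closedBall _ _, fun x => by
    obtain ⟨γ, hγ⟩ := hK0c x
    exact ⟨γ, hr hγ⟩, hsm, hfr, hpr⟩
  obtain ⟨-, F0, hF1, hF2, hF3⟩ := hDFD d Γ _ hfd
  have hfx : FDX Γ (Metric.closedBall (0 : V d) r) F0 := ⟨hF1, hF2, hF3⟩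
  obtain ⟨k₀, J, u, hJ, h1, h2, h3, h4⟩ := hFNF d Γ _ F0 hd hfd hfx
  refine ⟨k₀, J, u, hJ, h1, h2, h3, ?_⟩
  intro Q hQ m Gs hGs
  have hS : SFm Γ m Gs := (hQ _ F0 hfd hfx m Gs hGs).1
  have hSinv : ∀ ξ : ℕ × ℕ → ℝ, Inv Γ (fun x => ∑' k, ∑ j ∈ Finset.range (J k), ξ (k, j) * u k j x) := by
    intro ξ γ x
    refine tsum_congr fun k => Finset.sum_congr rfl fun j _ => ?_
    rw [(h1 k j).2.1 γ x]
  have hmain : ∀ᵐ ξ ∂(Measure.infinitePi fun _ : ℕ × ℕ => UN), ∀ s : V m, NegativelyCurved (cfm (fun x => ∑' k, ∑ j ∈ Finset.range (J k), ξ (k, j) * u k j x) (Gs s)) →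
          ∀ F : Set (V d), IsFundamentalDomain Γ F (volume : Measure (V d)) → QUE Γ F (cfm (fun x => ∑' k, ∑ j ∈ Finset.range (J k), ξ (k, j) * u k j x) (Gs s)) := by
    have h5 := h4 Q (hQ _ F0 hfd hfx) m Gs hGs
    have h6 := hRSM.2.1
    unfold PN at h5 h6
    filter_upwards [h5, h6] with ξ hξ hb s hneg F hF
    exact (hFTR d Γ _ F0 F _ hfd hfx ((hCFC d).1 _ _ (h3 ξ hb) (hS.met s)) (FNWE_iso (hS.iso s) (hSinv ξ)) hF).2 (hξ s hneg)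
  refine ⟨hmain, ?_⟩
  intro L hL hneg L' n₀ τ hL' hτ
  obtain ⟨σ, hσ, hσn⟩ := hNGB d Γ _ m Gs L hfd hS hL hneg
  rw [pos_iff_ne_zero]
  intro hzero
  have hτ' : 0 < min τ σ := lt_min hτ hσ
  obtain ⟨ξ, hξ1, ⟨hξ2, hξ3⟩, hξ4⟩ := hFPS d J u (fun k j => (h1 k j).1) h2 _ (hmain.and (measure_eq_zero_iff_ae_notMem.1 hzero)) (L' ∪ Metric.closedBall (0 : V d) r) (max n₀ 2) (min τ σ) (hL'.union (isCompact_closedBall _ _)) hτ'
  have hneg2 : ∀ s ∈ L, NegativelyCurved (cfm (fun x => ∑' k, ∑ j ∈ Finset.range (J k), ξ (k, j) * u k j x) (Gs s)) := by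
    refine hσn _ (h3 ξ hξ1) (hSinv ξ) fun n hn x hx => ?_
    exact (hξ4 n (hn.trans (le_max_right _ _)) x (Or.inr hx)).trans (min_le_right _ _)
  exact hξ3 ⟨fun n hn x hx => (hξ4 n (hn.trans (le_max_left _ _)) x (Or.inl hx)).trans (min_le_left _ _),
    fun s hs => ⟨hneg2 s hs, hξ2 s (hneg2 s hs)⟩⟩

end Pool.Agent.VDI
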